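import Mathlib
import Pool.Agent.Lib.MP_6bc78b_nt.MS.Top

/-! Project MS (MP_6bc78b_nt), Part IIIa: the principal parts `LVStatement`, `LVBStatement`, by an
elementary method. Definitions and statements of the modules of board ms3a_modules; proofs in
Paper.md. -/

set_option autoImplicit false

open Filter Topology ArithmeticFunction

namespace Pool.Agent.Lib.MP_6bc78b_nt.MS.L

/-! ## Definitions -/

/-- `F_j(x) = (log x)^j G(x)`. -/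
noncomputable def Fj (T : ℝ) (j : ℕ) (x : ℝ) : ℝ := Real.log x ^ j * GG T x

/-- `J_i = ∫_0^∞ (log x)^i G(x) dx`. -/
noncomputable def Jn (T : ℝ) (i : ℕ) : ℝ := ∫ x in Set.Ioi (0 : ℝ), Fj T i x

/-- `H(α; j, d, ρ) = ∑_k α(d k) F_j(k/ρ)`. -/
noncomputable def HH (α : ArithmeticFunction ℝ) (T : ℝ) (j d : ℕ) (ρ : ℝ) : ℝ :=
  ∑' k : ℕ, α (d * k) * Fj T j ((k : ℝ) / ρ)

/-- The combination that occurs in `LVStatement`. -/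
noncomputable def HT (T : ℝ) (d : ℕ) (ρ : ℝ) : ℝ :=
  HH (La * lg) T 0 d ρ - 2 * HH lg T 1 d ρ + HH one T 2 d ρ

/-- The combination that occurs in `LVBStatement`. -/
noncomputable def HTB (lam T : ℝ) (d : ℕ) (ρ : ℝ) : ℝ :=
  HH (La * lg * bb lam T) T 0 d ρ - 2 * HH (lg * bb lam T) T 1 d ρ + HH (one * bb lam T) T 2 d ρ

/-- `g(d) = ∑_{p ∣ d} p/(p-1) log² p`. -/
noncomputable def gg (d : ℕ) : ℝ :=
  ∑ p ∈ d.primeFactors, Real.log p ^ 2 * ((p : ℝ) / ((p : ℝ) - 1))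

/-- Main term: `H_T(d, ρ) ≈ ρ E(d, log d + log ρ)`. -/
noncomputable def ET (κ1 κ0 T : ℝ) (d : ℕ) (N : ℝ) : ℝ :=
  Jn T 0 * (N ^ 2 / 2 + Real.log d * N - Real.log d ^ 2 / 2 + κ1 * (N - Real.log d) + κ0 - gg d)
    + Jn T 1 * (Real.log d - N + κ1) - Jn T 2 / 2

/-- Main term: `H_TB(d, ρ) ≈ ρ E_B(d, log d + log ρ)`. -/
noncomputable def ETB (κ1 κ0 lam T : ℝ) (d : ℕ) (N : ℝ) : ℝ :=
  ∑ a ∈ Finset.Icc 1 ⌊T ^ lam⌋₊, bb lam T a / a *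
    (if a.minFac ∣ d then (a.minFac : ℝ) * ET κ1 κ0 T (d / a.minFac) (N - Real.log a)
      else ET κ1 κ0 T d (N - Real.log a))

/-- `Δ(m; M) = ∑_{e ∣ m} μ(e) E(e; M)`. -/
noncomputable def DT (κ1 κ0 T : ℝ) (m : ℕ) (M : ℝ) : ℝ :=
  ∑ e ∈ m.divisors, ((ArithmeticFunction.moebius e : ℤ) : ℝ) * ET κ1 κ0 T e M

/-- The main sums. -/
noncomputable def Mn (κ1 κ0 th c1 c2 T : ℝ) (q : ℕ) (c s : ℝ) : ℝ :=
  ∑ m ∈ (Finset.Icc 1 ⌊T ^ th / c⌋₊).filter (fun m => Squarefree m ∧ Nat.Coprime m q),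
    PP c1 c2 (1 - (Real.log m + Real.log c) / (th * Real.log T)) / (m.totient : ℝ) *
      DT κ1 κ0 T m (Real.log m + s)

/-- Polynomial growth. -/
def Pgr (α : ArithmeticFunction ℝ) : Prop :=
  ∃ (C : ℝ) (k : ℕ), ∀ n : ℕ, |α n| ≤ C * (n : ℝ) ^ k

/-- `∑_{n ≤ x} a(n) = x P(log x) + O(C x^(19/20))` for all `x > 0`. -/
def SumAsy (a : ℕ → ℝ) (P : Polynomial ℝ) (C : ℝ) : Prop :=
  a 0 = 0 ∧ (∃ C' : ℝ, ∀ n : ℕ, |a n| ≤ C' * (n : ℝ) ^ 2) ∧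
  ∀ x : ℝ, 0 < x → |∑ n ∈ Finset.Icc 1 ⌊x⌋₊, a n - x * P.eval (Real.log x)| ≤
    C * x ^ (19 / 20 : ℝ)

/-- The weights of Mertens sums. -/
noncomputable def w1 (n : ℕ) : ℝ := ArithmeticFunction.vonMangoldt n / n

/-- The weights of Mertens sums. -/
noncomputable def w2 (n : ℕ) : ℝ := if n.Prime then Real.log n / ((n : ℝ) - 1) else 0

/-- The polynomial of `Λ * log`. -/
noncomputable def PL (κ1 κ0 : ℝ) : Polynomial ℝ :=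
  Polynomial.C (1 / 2) * Polynomial.X ^ 2 + Polynomial.C (κ1 - 1) * Polynomial.X +
    Polynomial.C (κ0 - κ1 + 1)

/-! ## Number theoretic input -/

/-- PSI: prime number theorem with a power saving (under RH). -/
def PsiStatement : Prop := ∃ C : ℝ, 0 < C ∧ ∀ x : ℝ, 0 < x →
  |Chebyshev.psi x - x| ≤ C * x ^ (4 / 5 : ℝ)

/-- MER: Mertens. -/
def MerStatement : Prop := ∃ C : ℝ, 0 < C ∧
  (∀ x : ℝ, 1 ≤ x → |∑ n ∈ Finset.Icc 1 ⌊x⌋₊, w1 n - Real.log x| ≤ C) ∧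
  (∀ x : ℝ, 1 ≤ x → |∑ n ∈ Finset.Icc 1 ⌊x⌋₊, w2 n - Real.log x| ≤ C) ∧
  (∀ N : ℕ, ∑ n ∈ (Finset.Icc 1 N).filter (fun n => ¬ n.Prime), w1 n ≤ C)

/-- SLA: Mertens sums with a power saving. -/
def SlaStatement : Prop := ∃ A0 A1 C : ℝ, 0 < C ∧ ∀ x : ℝ, 1 ≤ x →
  |∑ n ∈ Finset.Icc 1 ⌊x⌋₊, w1 n - (Real.log x + A0)| ≤ C * x ^ (-(1 / 10) : ℝ) ∧
  |∑ n ∈ Finset.Icc 1 ⌊x⌋₊, w1 n * Real.log n - (Real.log x ^ 2 / 2 + A1)| ≤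
    C * x ^ (-(1 / 10) : ℝ)

/-- SLL: the summatory function of `Λ * log`. -/
def SllStatement : Prop := ∃ κ1 κ0 C : ℝ, SumAsy (fun n => (La * lg) n) (PL κ1 κ0) C

/-- ASY: the other summatory functions. -/
def AsyStatement : Prop := ∃ C : ℝ,
  SumAsy (fun n => one n) 1 C ∧ SumAsy (fun n => lg n) (Polynomial.X - 1) C ∧
  ∀ p : ℕ, p.Prime → SumAsy (fun n => (n.factorization p : ℝ)) (Polynomial.C (1 / ((p : ℝ) - 1))) C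

/-! ## The kernel -/

/-- JN: the integrals `J_i`. -/
def JnStatement : Prop :=
  (∀ (i : ℕ) (T : ℝ), 1 < T → MeasureTheory.IntegrableOn (Fj T i) (Set.Ioi 0)) ∧
  ∀ i : ℕ, Tendsto (fun T : ℝ => Jn T i / (cG T * Real.log T ^ i)) atTop (𝓝 1)

/-- KD1: the derivative of the kernel, integrability and decay. -/
def Kd1Statement : Prop :=
  (∀ (j : ℕ) (T u : ℝ), 1 < T → 0 < u → HasDerivAt (Fj T j)
    ((j : ℝ) * Real.log u ^ (j - 1) / u * GG T u -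
      Real.log u ^ j * (4 * Real.pi * (2 * Real.pi * u - T) / DD T ^ 2 * GG T u)) u) ∧
  (∀ (j : ℕ) (T s : ℝ), 1 < T → 0 < s →
    MeasureTheory.IntegrableOn (fun u : ℝ => |deriv (Fj T j) u| * u ^ s) (Set.Ioi 0)) ∧
  (∀ (j : ℕ) (T s : ℝ), 1 < T → 0 < s →
    Tendsto (fun u : ℝ => Fj T j u * u ^ s) atTop (𝓝 0) ∧
    Tendsto (fun u : ℝ => Fj T j u * u ^ s) (𝓝[>] 0) (𝓝 0))

/-- KD2: the derivative of the kernel, size. -/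
def Kd2Statement : Prop := ∀ j : ℕ, ∃ K : ℝ, 0 < K ∧ ∀ᶠ T : ℝ in atTop,
    ∫ u in Set.Ioi (0 : ℝ), |deriv (Fj T j) u| * u ^ (19 / 20 : ℝ) ≤
      K * Real.log T ^ j * T ^ (19 / 20 : ℝ)

/-- U: from summatory functions to kernel sums, uniformly. -/
def UStatement : Prop := ∀ j : ℕ, ∃ K : ℝ, 0 < K ∧ ∀ᶠ T : ℝ in atTop,
  ∀ (a : ℕ → ℝ) (P : Polynomial ℝ) (C : ℝ), SumAsy a P C → ∀ ρ : ℝ, 0 < ρ →
    |∑' n : ℕ, a n * Fj T j ((n : ℝ) / ρ) -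
      ρ * ∫ x in Set.Ioi (0 : ℝ), Fj T j x *
        (P + Polynomial.derivative P).eval (Real.log ρ + Real.log x)| ≤
      K * C * Real.log T ^ j * (ρ * T) ^ (19 / 20 : ℝ)

/-- UA: the four kernel sums. -/
def UaStatement (κ1 κ0 : ℝ) : Prop :=
  (∀ j : ℕ, ∃ K : ℝ, 0 < K ∧ ∀ᶠ T : ℝ in atTop, ∀ ρ : ℝ, 0 < ρ →
    |∑' n : ℕ, one n * Fj T j ((n : ℝ) / ρ) - ρ * Jn T j| ≤
      K * Real.log T ^ j * (ρ * T) ^ (19 / 20 : ℝ)) ∧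
  (∀ j : ℕ, ∃ K : ℝ, 0 < K ∧ ∀ᶠ T : ℝ in atTop, ∀ ρ : ℝ, 0 < ρ →
    |∑' n : ℕ, lg n * Fj T j ((n : ℝ) / ρ) - ρ * (Real.log ρ * Jn T j + Jn T (j + 1))| ≤
      K * Real.log T ^ j * (ρ * T) ^ (19 / 20 : ℝ)) ∧
  (∃ K : ℝ, 0 < K ∧ ∀ᶠ T : ℝ in atTop, ∀ ρ : ℝ, 0 < ρ →
    |∑' n : ℕ, (La * lg) n * Fj T 0 ((n : ℝ) / ρ) -
      ρ * (Jn T 0 * (Real.log ρ ^ 2 / 2 + κ1 * Real.log ρ + κ0) +
        Jn T 1 * (Real.log ρ + κ1) + Jn T 2 / 2)| ≤ K * (ρ * T) ^ (19 / 20 : ℝ)) ∧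
  (∃ K : ℝ, 0 < K ∧ ∀ᶠ T : ℝ in atTop, ∀ p : ℕ, p.Prime → ∀ ρ : ℝ, 0 < ρ →
    |∑' n : ℕ, (n.factorization p : ℝ) * Fj T 0 ((n : ℝ) / ρ) - ρ * (Jn T 0 / ((p : ℝ) - 1))| ≤
      K * (ρ * T) ^ (19 / 20 : ℝ))

/-! ## The sums `H` -/

/-- GRW: growth and summability. -/
def GrwStatement : Prop :=
  Pgr one ∧ Pgr lg ∧ Pgr La ∧ (∀ lam T : ℝ, 0 < lam → 1 < T → Pgr (bb lam T)) ∧
  (∀ a b : ArithmeticFunction ℝ, Pgr a → Pgr b → Pgr (a * b)) ∧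
  (∀ (a : ℕ → ℝ) (C : ℝ) (k : ℕ), (∀ n : ℕ, |a n| ≤ C * (n : ℝ) ^ k) → ∀ (T : ℝ) (j : ℕ) (ρ : ℝ),
    1 < T → 0 < ρ → Summable (fun k : ℕ => a k * Fj T j ((k : ℝ) / ρ))) ∧
  (∀ α : ArithmeticFunction ℝ, Pgr α → ∀ (T : ℝ) (j d : ℕ) (ρ : ℝ), 1 < T → 0 < ρ →
    Summable (fun k : ℕ => α (d * k) * Fj T j ((k : ℝ) / ρ)))

/-- SPL: opening the Ramanujan sum. -/
def SplStatement : Prop := ∀ (th c1 c2 T : ℝ) (j : ℕ) (α : ArithmeticFunction ℝ), 1 < T → Pgr α →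
  Psum th c1 c2 T j α = ∑ m ∈ Finset.Icc 1 ⌊T ^ th⌋₊,
    (bet th c1 c2 T m / (m * (Nat.totient m : ℝ))) * ∑ d ∈ m.divisors,
      (d : ℝ) * ((ArithmeticFunction.moebius (m / d) : ℤ) : ℝ) * HH α T j d ((m : ℝ) / d)

/-- ID1: `Λ * log` at `d k`. -/
def Id1Statement : Prop := ∀ d k : ℕ, Squarefree d → 1 ≤ k →
  (La * lg) (d * k) = (La * lg) k + 2 * Real.log d * Real.log k + Real.log d ^ 2 -
    ∑ p ∈ d.primeFactors, Real.log p ^ 2 * (1 + (k.factorization p : ℝ))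

/-- HT: main term of `H_T`. -/
def HtStatement (κ1 κ0 : ℝ) : Prop := ∃ K : ℝ, 0 < K ∧ ∀ᶠ T : ℝ in atTop,
  ∀ d : ℕ, Squarefree d → ∀ ρ : ℝ, 0 < ρ →
    |HT T d ρ - ρ * ET κ1 κ0 T d (Real.log d + Real.log ρ)| ≤
      K * Real.log T ^ 2 * (1 + Real.log d) ^ 2 * (ρ * T) ^ (19 / 20 : ℝ)

/-- ID2: convolution with the prime coefficients. -/
def Id2Statement : Prop := ∀ (lam T : ℝ) (j d : ℕ) (ρ : ℝ) (α : ArithmeticFunction ℝ),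
  0 < lam → 1 < T → 0 < ρ → Squarefree d → Pgr α →
    HH (α * bb lam T) T j d ρ = ∑ a ∈ Finset.Icc 1 ⌊T ^ lam⌋₊, bb lam T a *
      (if a.minFac ∣ d then HH α T j (d / a.minFac) (ρ * a.minFac / a) else HH α T j d (ρ / a))

/-- HTB: main term of `H_TB`. -/
def HtbStatement (κ1 κ0 : ℝ) : Prop := ∀ lam : ℝ, 0 < lam → lam < 1 →
  ∃ K : ℝ, 0 < K ∧ ∀ᶠ T : ℝ in atTop, ∀ d : ℕ, Squarefree d → ∀ ρ : ℝ, 0 < ρ →
    |HTB lam T d ρ - ρ * ETB κ1 κ0 lam T d (Real.log d + Real.log ρ)| ≤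
      K * Real.log T ^ 3 * (1 + Real.log d) ^ 3 * (ρ * T) ^ (19 / 20 : ℝ) * T ^ (lam / 20)

/-- ERR: the errors are negligible. -/
def ErrStatement : Prop := ∀ th c1 c2 lam K : ℝ, 0 < th → th < 1 / 2 → 0 ≤ lam → lam < 1 →
  ∀ H E : ℝ → ℕ → ℝ → ℝ,
  (∀ᶠ T : ℝ in atTop, ∀ d : ℕ, Squarefree d → ∀ ρ : ℝ, 0 < ρ →
    |H T d ρ - ρ * E T d (Real.log d + Real.log ρ)| ≤
      K * Real.log T ^ 3 * (1 + Real.log d) ^ 3 * (ρ * T) ^ (19 / 20 : ℝ) * T ^ (lam / 20)) →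
  Tendsto (fun T : ℝ => (∑ m ∈ Finset.Icc 1 ⌊T ^ th⌋₊,
      (bet th c1 c2 T m / (m * (Nat.totient m : ℝ))) * ∑ d ∈ m.divisors,
        (d : ℝ) * ((ArithmeticFunction.moebius (m / d) : ℤ) : ℝ) * H T d ((m : ℝ) / d) -
    ∑ m ∈ (Finset.Icc 1 ⌊T ^ th⌋₊).filter Squarefree,
      PP c1 c2 (1 - Real.log m / (th * Real.log T)) / (m.totient : ℝ) * ∑ d ∈ m.divisors,
        ((ArithmeticFunction.moebius d : ℤ) : ℝ) * E T d (Real.log m)) /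
    (cG T * Real.log T ^ 2)) atTop (𝓝 0)

/-! ## The main sums -/

/-- DEL: evaluation of `Δ`. -/
def DelStatement : Prop := ∀ (κ1 κ0 T M : ℝ) (m : ℕ), Squarefree m →
  DT κ1 κ0 T m M =
    (if m = 1 then Jn T 0 * (M ^ 2 / 2 + κ1 * M + κ0) + Jn T 1 * (κ1 - M) - Jn T 2 / 2 else 0) +
    (if m.Prime then -(Real.log m * (Jn T 0 * (M - κ1) + Jn T 1)) + Jn T 0 * Real.log m ^ 2 / 2 +
      Jn T 0 * (Real.log m ^ 2 * ((m : ℝ) / ((m : ℝ) - 1))) else 0) -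
    Jn T 0 * ((La * La) m / 2)

/-- PS1: sums over primes of smooth functions. -/
def Ps1Statement : Prop := ∀ (w : ℕ → ℝ) (C0 : ℝ), 0 ≤ C0 →
  (∀ x : ℝ, 1 ≤ x → |∑ n ∈ Finset.Icc 1 ⌊x⌋₊, w n - Real.log x| ≤ C0) →
  ∀ (L t K : ℝ) (f f' : ℝ → ℝ), 1 ≤ L → 0 ≤ t → t ≤ 1 → (∀ u, HasDerivAt f (f' u) u) →
    Continuous f' → (∀ u ∈ Set.Icc 0 t, |f u| ≤ K) → (∀ u ∈ Set.Icc 0 t, |f' u| ≤ K) →
    |∑ n ∈ Finset.Icc 1 ⌊Real.exp (t * L)⌋₊, w n * f (Real.log n / L) -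
      L * ∫ u in (0 : ℝ)..t, f u| ≤ 2 * C0 * K

/-- PS2: sums over pairs. -/
def Ps2Statement : Prop := ∀ (w : ℕ → ℝ) (C0 : ℝ), 0 ≤ C0 → (∀ n, 0 ≤ w n) →
  (∀ x : ℝ, 1 ≤ x → |∑ n ∈ Finset.Icc 1 ⌊x⌋₊, w n - Real.log x| ≤ C0) →
  ∃ C1 : ℝ, 0 < C1 ∧ ∀ (L t K : ℝ) (f f' : ℝ → ℝ), 1 ≤ L → 0 ≤ t → t ≤ 1 →
    (∀ u, HasDerivAt f (f' u) u) →
    Continuous f' → (∀ u ∈ Set.Icc 0 t, |f u| ≤ K) → (∀ u ∈ Set.Icc 0 t, |f' u| ≤ K) →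
    |∑ n ∈ Finset.Icc 1 ⌊Real.exp (t * L)⌋₊,
        (∑ x ∈ n.divisorsAntidiagonal, w x.1 * w x.2) * f (Real.log n / L) -
      L ^ 2 * ∫ u in (0 : ℝ)..t, u * f u| ≤ C1 * K * L

/-- MNA: the prime terms; `z = 1 - log c/(th L)`. -/
def MnaStatement : Prop := ∀ th c1 c2 : ℝ, 0 < th → th < 1 / 2 → ∃ K : ℝ, 0 < K ∧
  ∀ᶠ T : ℝ in atTop, ∀ q : ℕ, (q = 1 ∨ q.Prime) → ∀ c z : ℝ, 1 ≤ c → c ≤ T ^ th →
    z = 1 - Real.log c / (th * Real.log T) →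
    |∑ p ∈ (Finset.Icc 1 ⌊T ^ th / c⌋₊).filter (fun p => p.Prime ∧ Nat.Coprime p q),
      PP c1 c2 (1 - (Real.log p + Real.log c) / (th * Real.log T)) *
        (Real.log p / ((p : ℝ) - 1)) -
      Real.log T * (th * (c1 * z ^ 2 / 2 + c2 * z ^ 3 / 3))| ≤ K ∧
    |∑ p ∈ (Finset.Icc 1 ⌊T ^ th / c⌋₊).filter (fun p => p.Prime ∧ Nat.Coprime p q),
      PP c1 c2 (1 - (Real.log p + Real.log c) / (th * Real.log T)) *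
        (Real.log p ^ 2 / ((p : ℝ) - 1)) -
      Real.log T ^ 2 * (th ^ 2 * (c1 * z ^ 3 / 6 + c2 * z ^ 4 / 12))| ≤ K * Real.log T

/-- MNB: the terms with two primes. -/
def MnbStatement : Prop := ∀ th c1 c2 : ℝ, 0 < th → th < 1 / 2 → ∃ K : ℝ, 0 < K ∧
  ∀ᶠ T : ℝ in atTop, ∀ q : ℕ, (q = 1 ∨ q.Prime) → ∀ c z : ℝ, 1 ≤ c → c ≤ T ^ th →
    z = 1 - Real.log c / (th * Real.log T) →
    |∑ m ∈ (Finset.Icc 1 ⌊T ^ th / c⌋₊).filter (fun m => Squarefree m ∧ Nat.Coprime m q),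
      PP c1 c2 (1 - (Real.log m + Real.log c) / (th * Real.log T)) *
        ((La * La) m / (m.totient : ℝ)) -
      Real.log T ^ 2 * (th ^ 2 * (c1 * z ^ 3 / 6 + c2 * z ^ 4 / 12))| ≤ K * Real.log T

/-- MN: the main sums; `z = 1 - log c/(th L)`. -/
def MnStatement : Prop := ∀ κ1 κ0 th c1 c2 : ℝ, 0 < th → th < 1 / 2 → ∃ K : ℝ, 0 < K ∧
  ∀ᶠ T : ℝ in atTop, ∀ q : ℕ, (q = 1 ∨ q.Prime) → ∀ c s z : ℝ, 1 ≤ c → c ≤ T ^ th →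
    |s| ≤ Real.log T → z = 1 - Real.log c / (th * Real.log T) →
    |Mn κ1 κ0 th c1 c2 T q c s -
      (PP c1 c2 z * (Jn T 0 * s ^ 2 / 2 - Jn T 1 * s - Jn T 2 / 2) -
        (Jn T 0 * s + Jn T 1) * (Real.log T * (th * (c1 * z ^ 2 / 2 + c2 * z ^ 3 / 3))))| ≤
      K * (cG T * Real.log T)

/-- REA: rearrangement of the main term of `LVBStatement`. -/
def ReaStatement : Prop := ∀ κ1 κ0 th c1 c2 lam T : ℝ, 0 < th → 0 < lam → 1 < T →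
  ∑ m ∈ (Finset.Icc 1 ⌊T ^ th⌋₊).filter Squarefree,
      PP c1 c2 (1 - Real.log m / (th * Real.log T)) / (m.totient : ℝ) * ∑ d ∈ m.divisors,
        ((ArithmeticFunction.moebius d : ℤ) : ℝ) * ETB κ1 κ0 lam T d (Real.log m) =
    ∑ a ∈ Finset.Icc 1 ⌊T ^ lam⌋₊, bb lam T a / a *
      (Mn κ1 κ0 th c1 c2 T a.minFac 1 (-Real.log a) -
        Mn κ1 κ0 th c1 c2 T a.minFac a.minFac (Real.log a.minFac - Real.log a))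

/-- PSB: averages against the prime coefficients. -/
def PsbStatement : Prop := ∀ th lam : ℝ, 0 < th → th < lam → lam < 1 →
  (∀ k : ℕ, Tendsto (fun T : ℝ => ∑ a ∈ Finset.Icc 1 ⌊T ^ lam⌋₊,
    bb lam T a / a * (Real.log a / Real.log T) ^ k) atTop
      (𝓝 (lam ^ k / (((k : ℝ) + 1) * (k + 2))))) ∧
  (∀ k : ℕ, Tendsto (fun T : ℝ => ∑ a ∈ (Finset.Icc 1 ⌊T ^ th⌋₊).filter Nat.Prime,
    bb lam T a / a * (1 - Real.log a / (th * Real.log T)) ^ k) atTop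
      (𝓝 (th / lam * (1 / ((k : ℝ) + 1) - th / lam / (((k : ℝ) + 1) * (k + 2)))))) ∧
  Tendsto (fun T : ℝ => ∑ a ∈ (Finset.Icc 1 ⌊T ^ lam⌋₊).filter (fun a => ¬ a.Prime),
    bb lam T a / a) atTop (𝓝 0)

end Pool.Agent.Lib.MP_6bc78b_nt.MS.L
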