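import Mathlib
import Pool.Agent.Lib.MP_6bc78b_nt.MS.L.Iface

/-! Project MS, Part IIIa, module ID1. -/

set_option autoImplicit false

open Filter Topology ArithmeticFunction

namespace Pool.Agent.Lib.MP_6bc78b_nt.MS.L

namespace Id1

/-- `∑_{a ∣ n} Λ(a) log a`. -/
noncomputable def GD (n : ℕ) : ℝ :=
  ∑ a ∈ n.divisors, ArithmeticFunction.vonMangoldt a * Real.log a

lemma conv_eq (n : ℕ) (hn : 1 ≤ n) : (La * lg) n = Real.log n ^ 2 - GD n := by
  unfold La lg GD
  rw [ArithmeticFunction.mul_apply,
    Nat.sum_divisorsAntidiagonal (f := fun i j => ArithmeticFunction.vonMangoldt i *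
      ArithmeticFunction.log j)]
  have h1 : ∀ i ∈ n.divisors, ArithmeticFunction.vonMangoldt i * ArithmeticFunction.log (n / i) =
      Real.log n * ArithmeticFunction.vonMangoldt i - ArithmeticFunction.vonMangoldt i * Real.log i := by
    intro i hi
    have hd := Nat.dvd_of_mem_divisors hi
    have hi0 : 0 < i := Nat.pos_of_mem_divisors hi
    rw [ArithmeticFunction.log_apply, Nat.cast_div hd (by exact_mod_cast hi0.ne'),
      Real.log_div (by exact_mod_cast (by omega : n ≠ 0)) (by exact_mod_cast hi0.ne')]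
    ring
  rw [Finset.sum_congr rfl h1, Finset.sum_sub_distrib, ← Finset.mul_sum,
    ArithmeticFunction.vonMangoldt_sum]
  ring

lemma GD_mul_prime (p n : ℕ) (hp : p.Prime) (hn : 1 ≤ n) :
    GD (p * n) = GD n + Real.log p ^ 2 * (1 + (n.factorization p : ℝ)) := by
  classical
  set v := n.factorization p with hv
  have hn0 : n ≠ 0 := by omega
  have hpn0 : p * n ≠ 0 := Nat.mul_ne_zero hp.ne_zero hn0
  have hnotin : p ^ (v + 1) ∉ n.divisors := by
    intro h
    have := (hp.pow_dvd_iff_le_factorization hn0).1 (Nat.dvd_of_mem_divisors h)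
    omega
  have hsub : insert (p ^ (v + 1)) n.divisors ⊆ (p * n).divisors := by
    intro a ha
    rw [Finset.mem_insert] at ha
    rw [Nat.mem_divisors]
    refine ⟨?_, hpn0⟩
    rcases ha with h | h
    · rw [h, pow_succ, mul_comm]
      exact Nat.mul_dvd_mul_left p (Nat.ordProj_dvd n p)
    · exact dvd_trans (Nat.dvd_of_mem_divisors h) (Nat.dvd_mul_left n p)
  have hzero : ∀ a ∈ (p * n).divisors, a ∉ insert (p ^ (v + 1)) n.divisors →
      ArithmeticFunction.vonMangoldt a * Real.log a = 0 := by
    intro a ha hna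
    rw [Finset.mem_insert, not_or] at hna
    by_contra hne
    have hL : ArithmeticFunction.vonMangoldt a ≠ 0 := fun h => hne (by rw [h, zero_mul])
    rw [ArithmeticFunction.vonMangoldt_ne_zero_iff, isPrimePow_nat_iff] at hL
    obtain ⟨q, i, hq, hi, rfl⟩ := hL
    have hdvd : q ^ i ∣ p * n := Nat.dvd_of_mem_divisors ha
    have hnd : ¬ q ^ i ∣ n := fun h => hna.2 (Nat.mem_divisors.2 ⟨h, hn0⟩)
    by_cases hqp : q = p
    · subst hqp
      have h1 := (hp.pow_dvd_iff_le_factorization hpn0).1 hdvd
      have h2 : ¬ i ≤ n.factorization q := fun h => hnd ((hp.pow_dvd_iff_le_factorization hn0).2 h)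
      rw [Nat.factorization_mul hp.ne_zero hn0, Finsupp.add_apply,
        Nat.Prime.factorization_self hp] at h1
      have : i = v + 1 := by omega
      exact hna.1 (by rw [this])
    · have hcop : Nat.Coprime (q ^ i) p := Nat.Coprime.pow_left i ((Nat.coprime_primes hq hp).2 hqp)
      exact hnd (hcop.dvd_of_dvd_mul_left hdvd)
  unfold GD
  rw [← Finset.sum_subset hsub hzero, Finset.sum_insert hnotin,
    ArithmeticFunction.vonMangoldt_apply_pow (Nat.succ_ne_zero v),
    ArithmeticFunction.vonMangoldt_apply_prime hp]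
  push_cast
  rw [Real.log_pow]
  push_cast
  ring

lemma GD_mul_prod (s : Finset ℕ) (hs : ∀ p ∈ s, p.Prime) (k : ℕ) (hk : 1 ≤ k) :
    GD ((∏ p ∈ s, p) * k) = GD k + ∑ p ∈ s, Real.log p ^ 2 * (1 + (k.factorization p : ℝ)) := by
  classical
  induction s using Finset.induction_on with
  | empty => simp
  | insert p s hps ih =>
    have hp : p.Prime := hs p (Finset.mem_insert_self _ _)
    have hs' : ∀ q ∈ s, q.Prime := fun q hq => hs q (Finset.mem_insert_of_mem hq)
    have hprod : 1 ≤ ∏ q ∈ s, q := Finset.prod_pos (fun q hq => (hs' q hq).pos)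
    rw [Finset.prod_insert hps, mul_assoc, GD_mul_prime p _ hp (Nat.mul_pos hprod hk), ih hs',
      Finset.sum_insert hps]
    have hf : ((∏ q ∈ s, q) * k).factorization p = k.factorization p := by
      rw [Nat.factorization_mul (by omega) (by omega), Finsupp.add_apply]
      have : (∏ q ∈ s, q).factorization p = 0 := by
        apply Nat.factorization_eq_zero_of_not_dvd
        intro h
        obtain ⟨q, hq, hpq⟩ := (hp.prime.dvd_finset_prod_iff _).1 h
        have : p = q := (Nat.prime_dvd_prime_iff_eq hp (hs' q hq)).1 hpq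
        exact hps (this ▸ hq)
      rw [this, zero_add]
    rw [hf]
    ring

end Id1

open Id1 in
/-- Module ID1. -/
theorem id1 : Id1Statement := by
  intro d k hd hk
  have hd1 : 1 ≤ d := Nat.pos_of_ne_zero hd.ne_zero
  have hdk : 1 ≤ d * k := Nat.mul_pos hd1 hk
  rw [conv_eq _ hdk, conv_eq k hk]
  have hprod : ∏ p ∈ d.primeFactors, p = d := Nat.prod_primeFactors_of_squarefree hd
  have h := GD_mul_prod d.primeFactors (fun p hp => Nat.prime_of_mem_primeFactors hp) k hk
  rw [hprod] at h
  rw [h]
  have hlog : Real.log ((d * k : ℕ) : ℝ) = Real.log d + Real.log k := by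
    push_cast
    rw [Real.log_mul (by exact_mod_cast (by omega : d ≠ 0)) (by exact_mod_cast (by omega : k ≠ 0))]
  rw [hlog]
  ring

end Pool.Agent.Lib.MP_6bc78b_nt.MS.L
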