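import Pool.Agent.Lib.MP_6bc78b_nt.MS.L.Iface

/-! Project MS, Part IIIa, module KD2 (helper88): the size of the derivative of the kernel. -/

set_option autoImplicit false

open Filter Topology ArithmeticFunction MeasureTheory

namespace Pool.Agent.Lib.MP_6bc78b_nt.MS.L

namespace Kd2

theorem log_pow_le (k : ℕ) {u : ℝ} (hu : 0 < u) :
    |Real.log u| ^ k ≤ 20 ^ k * (k.factorial : ℝ) *
      (u ^ (-(1 / 20) : ℝ) + u ^ (1 / 20 : ℝ)) := by
  have h0 : 0 ≤ |Real.log u| / 20 := by positivity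
  have h1 := Real.pow_div_factorial_le_exp (|Real.log u| / 20) h0 k
  have hk : (0 : ℝ) < k.factorial := by exact_mod_cast k.factorial_pos
  rw [div_le_iff₀ hk, div_pow, div_le_iff₀ (by positivity)] at h1
  have h2 : Real.exp (|Real.log u| / 20) ≤ u ^ (-(1 / 20) : ℝ) + u ^ (1 / 20 : ℝ) := by
    rw [Real.rpow_def_of_pos hu, Real.rpow_def_of_pos hu]
    have p1 := Real.exp_pos (Real.log u * -(1 / 20))
    have p2 := Real.exp_pos (Real.log u * (1 / 20))
    rcases abs_cases (Real.log u) with ⟨h, _⟩ | ⟨h, _⟩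
    · rw [h, show Real.log u / 20 = Real.log u * (1 / 20) by ring]
      linarith
    · rw [h, show -Real.log u / 20 = Real.log u * -(1 / 20) by ring]
      linarith
  calc |Real.log u| ^ k ≤ Real.exp (|Real.log u| / 20) * k.factorial * 20 ^ k := h1
    _ = 20 ^ k * (k.factorial : ℝ) * Real.exp (|Real.log u| / 20) := by ring
    _ ≤ _ := mul_le_mul_of_nonneg_left h2 (by positivity)

theorem main_le (k : ℕ) {T L u v : ℝ} (hL : 1 ≤ L) (hT : Real.log T = L) (hT1 : 1 ≤ T)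
    (hu : 0 < u) (huT : u ≤ T * (1 + |v|)) :
    |Real.log u| ^ k * u ^ (19 / 20 : ℝ) ≤
      (2 * (20 ^ k * (k.factorial : ℝ)) + 1) * (L ^ k * T ^ (19 / 20 : ℝ)) * (1 + |v|) ^ (k + 1) := by
  have hT0 : 0 < T := by linarith
  have hv1 : 1 ≤ 1 + |v| := by linarith [abs_nonneg v]
  have hc0 : (0 : ℝ) ≤ 20 ^ k * (k.factorial : ℝ) := by positivity
  obtain ⟨c, hc⟩ : ∃ c, c = 20 ^ k * (k.factorial : ℝ) := ⟨_, rfl⟩
  rw [← hc] at hc0 ⊢
  have hLk : 1 ≤ L ^ k := one_le_pow₀ hL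
  have hTk : 1 ≤ T ^ (19 / 20 : ℝ) := Real.one_le_rpow hT1 (by norm_num)
  have hvk : 1 ≤ (1 + |v|) ^ (k + 1) := one_le_pow₀ hv1
  rcases le_or_gt u 1 with h | h
  · have h1 := log_pow_le k hu
    rw [← hc] at h1
    have h2 : |Real.log u| ^ k * u ^ (19 / 20 : ℝ) ≤ 2 * c := by
      calc |Real.log u| ^ k * u ^ (19 / 20 : ℝ)
          ≤ c * (u ^ (-(1 / 20) : ℝ) + u ^ (1 / 20 : ℝ)) * u ^ (19 / 20 : ℝ) :=
            mul_le_mul_of_nonneg_right h1 (by positivity)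
        _ = c * (u ^ (-(1 / 20) + 19 / 20 : ℝ) + u ^ (1 / 20 + 19 / 20 : ℝ)) := by
            rw [Real.rpow_add hu, Real.rpow_add hu]; ring
        _ ≤ c * (1 + 1) := by
            apply mul_le_mul_of_nonneg_left _ hc0
            apply add_le_add <;> exact Real.rpow_le_one hu.le h (by norm_num)
        _ = 2 * c := by ring
    refine h2.trans ?_
    have h3 : 1 ≤ L ^ k * T ^ (19 / 20 : ℝ) * (1 + |v|) ^ (k + 1) := by
      have := mul_le_mul (mul_le_mul hLk hTk zero_le_one (by linarith)) hvk zero_le_one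
        (by positivity)
      simpa using this
    calc 2 * c ≤ (2 * c + 1) * 1 := by linarith
      _ ≤ (2 * c + 1) * (L ^ k * T ^ (19 / 20 : ℝ) * (1 + |v|) ^ (k + 1)) :=
          mul_le_mul_of_nonneg_left h3 (by linarith)
      _ = _ := by ring
  · have hlog0 : 0 ≤ Real.log u := Real.log_nonneg h.le
    rw [abs_of_nonneg hlog0]
    have h1 : Real.log u ≤ L * (1 + |v|) := by
      have h2 : Real.log u ≤ Real.log (T * (1 + |v|)) := Real.log_le_log hu huT
      rw [Real.log_mul hT0.ne' (by positivity), hT] at h2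
      have h3 := Real.log_le_sub_one_of_pos (show 0 < 1 + |v| by linarith)
      have h4 := abs_nonneg v
      nlinarith
    have h2 : u ^ (19 / 20 : ℝ) ≤ T ^ (19 / 20 : ℝ) * (1 + |v|) := by
      calc u ^ (19 / 20 : ℝ) ≤ (T * (1 + |v|)) ^ (19 / 20 : ℝ) :=
            Real.rpow_le_rpow hu.le huT (by norm_num)
        _ = T ^ (19 / 20 : ℝ) * (1 + |v|) ^ (19 / 20 : ℝ) :=
            Real.mul_rpow hT0.le (by linarith)
        _ ≤ T ^ (19 / 20 : ℝ) * (1 + |v|) ^ (1 : ℝ) := by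
            apply mul_le_mul_of_nonneg_left _ (by positivity)
            exact Real.rpow_le_rpow_of_exponent_le hv1 (by norm_num)
        _ = _ := by rw [Real.rpow_one]
    have h3 : Real.log u ^ k ≤ (L * (1 + |v|)) ^ k := pow_le_pow_left₀ hlog0 h1 k
    calc Real.log u ^ k * u ^ (19 / 20 : ℝ)
        ≤ (L * (1 + |v|)) ^ k * (T ^ (19 / 20 : ℝ) * (1 + |v|)) :=
          mul_le_mul h3 h2 (by positivity) (by positivity)
      _ = 1 * (L ^ k * T ^ (19 / 20 : ℝ) * (1 + |v|) ^ (k + 1)) := by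
          rw [mul_pow, pow_succ]; ring
      _ ≤ (2 * c + 1) * (L ^ k * T ^ (19 / 20 : ℝ) * (1 + |v|) ^ (k + 1)) :=
          mul_le_mul_of_nonneg_right (by linarith) (by positivity)
      _ = _ := by ring

theorem gauss_poly (n : ℕ) (v : ℝ) :
    (1 + |v|) ^ n * Real.exp (-v ^ 2) ≤ n.factorial * Real.exp (3 / 2) * Real.exp (-v ^ 2 / 2) := by
  have h0 : 0 ≤ 1 + |v| := by positivity
  have h1 := Real.pow_div_factorial_le_exp (1 + |v|) h0 n
  have hk : (0 : ℝ) < n.factorial := by exact_mod_cast n.factorial_pos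
  rw [div_le_iff₀ hk] at h1
  have h2 : 1 + |v| + -v ^ 2 ≤ 3 / 2 + -v ^ 2 / 2 := by
    have := sq_nonneg (|v| - 1)
    have h3 := sq_abs v
    nlinarith
  calc (1 + |v|) ^ n * Real.exp (-v ^ 2)
      ≤ (Real.exp (1 + |v|) * n.factorial) * Real.exp (-v ^ 2) :=
        mul_le_mul_of_nonneg_right h1 (Real.exp_pos _).le
    _ = n.factorial * Real.exp (1 + |v| + -v ^ 2) := by
        rw [Real.exp_add (1 + |v|) (-v ^ 2)]; ring
    _ ≤ n.factorial * Real.exp (3 / 2 + -v ^ 2 / 2) :=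
        mul_le_mul_of_nonneg_left (Real.exp_le_exp.2 h2) hk.le
    _ = _ := by rw [Real.exp_add (3 / 2) (-v ^ 2 / 2)]; ring

theorem facts {T : ℝ} (hT1 : 1 < T) (hL : 64 ≤ Real.log T) : 0 < DD T ∧ DD T ≤ T ∧
    ∀ u : ℝ, u < T / 20 → Real.log T ≤ ((2 * Real.pi * u - T) / DD T) ^ 2 := by
  have hT0 : 0 < T := by linarith
  obtain ⟨L, hLd⟩ : ∃ L, L = Real.log T := ⟨_, rfl⟩
  have hD : DD T = T / L ^ (2 / 3 : ℝ) := by rw [hLd]; rfl
  rw [← hLd] at hL ⊢
  have hL0 : 0 < L := by linarith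
  have hp1 : 1 ≤ L ^ (2 / 3 : ℝ) := Real.one_le_rpow (by linarith) (by norm_num)
  have hp0 : 0 < L ^ (2 / 3 : ℝ) := by linarith
  have hDpos : 0 < DD T := by rw [hD]; positivity
  refine ⟨hDpos, by rw [hD]; exact div_le_self hT0.le hp1, fun u hu => ?_⟩
  have hsq : (L ^ (2 / 3 : ℝ)) ^ 2 = L * L ^ (1 / 3 : ℝ) := by
    rw [← Real.rpow_natCast, ← Real.rpow_mul hL0.le]
    rw [show (2 / 3 : ℝ) * ((2 : ℕ) : ℝ) = 1 + 1 / 3 by norm_num, Real.rpow_add hL0, Real.rpow_one]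
  have h4 : 4 ≤ L ^ (1 / 3 : ℝ) := by
    have h5 : (64 : ℝ) ^ (1 / 3 : ℝ) = 4 := by
      rw [show (64 : ℝ) = 4 ^ (3 : ℝ) by norm_num, ← Real.rpow_mul (by norm_num)]
      norm_num
    rw [← h5]
    exact Real.rpow_le_rpow (by norm_num) hL (by norm_num)
  have hpi : Real.pi < 3.2 := by linarith [Real.pi_lt_d2]
  have hpi0 := Real.pi_pos
  have hlow : 68 / 100 * T ≤ T - 2 * Real.pi * u := by
    have h6 : 2 * Real.pi * u ≤ 2 * Real.pi * (T / 20) :=
      mul_le_mul_of_nonneg_left hu.le (by positivity)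
    nlinarith
  have hv : 68 / 100 * L ^ (2 / 3 : ℝ) ≤ (T - 2 * Real.pi * u) / DD T := by
    rw [le_div_iff₀ hDpos, hD]
    have : 68 / 100 * L ^ (2 / 3 : ℝ) * (T / L ^ (2 / 3 : ℝ)) = 68 / 100 * T := by
      field_simp
    rw [this]
    exact hlow
  have hv2 : (68 / 100 * L ^ (2 / 3 : ℝ)) ^ 2 ≤ ((T - 2 * Real.pi * u) / DD T) ^ 2 :=
    pow_le_pow_left₀ (by positivity) hv 2
  have e : ((2 * Real.pi * u - T) / DD T) ^ 2 = ((T - 2 * Real.pi * u) / DD T) ^ 2 := by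
    rw [← neg_sq]
    congr 1
    ring
  rw [e]
  refine le_trans ?_ hv2
  rw [mul_pow, hsq]
  nlinarith

/-- the pointwise bound -/
theorem pointwise (h : Kd1Statement) (j : ℕ) {T : ℝ} (hT1 : 1 < T) (hL : 64 ≤ Real.log T)
    {u : ℝ} (hu : 0 < u) :
    |deriv (Fj T j) u| * u ^ (19 / 20 : ℝ) ≤
      (4 * Real.pi * (2 * (20 ^ j * (j.factorial : ℝ)) + 1) +
        20 * j * (2 * (20 ^ (j - 1) * ((j - 1).factorial : ℝ)) + 1)) *
        ((j + 2).factorial * Real.exp (3 / 2)) *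
        (Real.log T ^ j * T ^ (19 / 20 : ℝ)) / DD T *
        Real.exp (-((2 * Real.pi * u - T) / DD T) ^ 2 / 2) +
      (Set.Ioc (0 : ℝ) T).indicator (fun u => j * (20 ^ (j - 1) * ((j - 1).factorial : ℝ)) / T *
        (u ^ (-(1 / 10) : ℝ) + 1)) u := by
  have hT0 : 0 < T := by linarith
  obtain ⟨hD0, hDT, hv2⟩ := facts hT1 hL
  rw [(h.1 j T u hT1 hu).deriv]
  obtain ⟨v, hv⟩ : ∃ v, v = (2 * Real.pi * u - T) / DD T := ⟨_, rfl⟩
  have hG : GG T u = Real.exp (-v ^ 2) := by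
    unfold GG
    rw [hv, div_pow, neg_div]
  have hv2' := hv2 u
  rw [← hv] at hv2' ⊢
  have hvD : 2 * Real.pi * u - T = v * DD T := by
    rw [hv]
    field_simp
  rw [hG, hvD]
  obtain ⟨L, hLd⟩ : ∃ L, L = Real.log T := ⟨_, rfl⟩
  rw [← hLd] at hL hv2' ⊢
  obtain ⟨D, hDd⟩ : ∃ D, D = DD T := ⟨_, rfl⟩
  rw [← hDd] at hD0 hDT hvD ⊢
  have hpi := Real.pi_pos
  have hpi3 := Real.pi_gt_three
  have habs := abs_nonneg v
  have huT : u ≤ T * (1 + |v|) := by
    have h1 : v * D ≤ |v| * T := by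
      calc v * D ≤ |v| * D := mul_le_mul_of_nonneg_right (le_abs_self v) hD0.le
        _ ≤ |v| * T := mul_le_mul_of_nonneg_left hDT habs
    nlinarith
  have hE := Real.exp_pos (-v ^ 2)
  have hE2 := Real.exp_pos (-v ^ 2 / 2)
  have hg := gauss_poly (j + 2) v
  obtain ⟨M, hM⟩ : ∃ M : ℝ, M = (j + 2).factorial * Real.exp (3 / 2) := ⟨_, rfl⟩
  rw [← hM] at hg ⊢
  have hM0 : 0 ≤ M := by rw [hM]; positivity
  obtain ⟨A, hA⟩ : ∃ A : ℝ, A = L ^ j * T ^ (19 / 20 : ℝ) := ⟨_, rfl⟩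
  have hA0 : 0 ≤ A := by rw [hA]; have : 0 ≤ L := by linarith
                         positivity
  have hus : 0 < u ^ (19 / 20 : ℝ) := by positivity
  -- second part
  have hm := main_le j (v := v) (by linarith) hLd.symm hT1.le hu huT
  rw [← hA] at hm
  obtain ⟨c, hc⟩ : ∃ c : ℝ, c = 2 * (20 ^ j * (j.factorial : ℝ)) + 1 := ⟨_, rfl⟩
  obtain ⟨d, hd⟩ : ∃ d : ℝ, d = 20 ^ (j - 1) * ((j - 1).factorial : ℝ) := ⟨_, rfl⟩
  have hc0 : 0 ≤ c := by rw [hc]; positivity
  have hd0 : 0 ≤ d := by rw [hd]; positivity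
  rw [← hc] at hm
  rw [← hc, ← hd, ← hA]
  have hpow1 : 1 ≤ 1 + |v| := by linarith
  have second : |Real.log u| ^ j * (4 * Real.pi * |v| / D * Real.exp (-v ^ 2)) *
      u ^ (19 / 20 : ℝ) ≤ 4 * Real.pi * c * M * A / D * Real.exp (-v ^ 2 / 2) := by
    calc |Real.log u| ^ j * (4 * Real.pi * |v| / D * Real.exp (-v ^ 2)) * u ^ (19 / 20 : ℝ)
        = (4 * Real.pi / D) * (|v| * (|Real.log u| ^ j * u ^ (19 / 20 : ℝ))) *
            Real.exp (-v ^ 2) := by ring
      _ ≤ (4 * Real.pi / D) * ((1 + |v|) * (c * A * (1 + |v|) ^ (j + 1))) *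
            Real.exp (-v ^ 2) := by
          apply mul_le_mul_of_nonneg_right _ hE.le
          apply mul_le_mul_of_nonneg_left _ (by positivity)
          exact mul_le_mul (by linarith) hm (by positivity) (by positivity)
      _ = (4 * Real.pi * c * A / D) * ((1 + |v|) ^ (j + 2) * Real.exp (-v ^ 2)) := by
          ring
      _ ≤ (4 * Real.pi * c * A / D) * (M * Real.exp (-v ^ 2 / 2)) :=
          mul_le_mul_of_nonneg_left hg (by positivity)
      _ = _ := by ring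
  have hjj : ∀ x : ℝ, 1 ≤ x → x ^ (j - 1 + 1) ≤ x ^ (j + 2) := fun x hx =>
    pow_le_pow_right₀ hx (by omega)
  -- first part
  have hu1 : u ^ (19 / 20 : ℝ) / u = u ^ (-(1 / 20) : ℝ) := by
    rw [show (-(1 / 20) : ℝ) = 19 / 20 - 1 by norm_num, Real.rpow_sub_one hu.ne']
  have first : (j : ℝ) * |Real.log u| ^ (j - 1) / u * Real.exp (-v ^ 2) * u ^ (19 / 20 : ℝ) ≤
      20 * j * (2 * d + 1) * M * A / D * Real.exp (-v ^ 2 / 2) +
      (Set.Ioc (0 : ℝ) T).indicator (fun u => j * d / T * (u ^ (-(1 / 10) : ℝ) + 1)) u := by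
    have hind : 0 ≤ (Set.Ioc (0 : ℝ) T).indicator
        (fun u => j * d / T * (u ^ (-(1 / 10) : ℝ) + 1)) u := by
      apply Set.indicator_nonneg
      intro x hx
      have : 0 ≤ x ^ (-(1 / 10) : ℝ) := Real.rpow_nonneg hx.1.le _
      positivity
    rcases le_or_gt (T / 20) u with hc1 | hc1
    · have hm1 := main_le (j - 1) (v := v) (by linarith) hLd.symm hT1.le hu huT
      rw [← hd] at hm1
      have hLj : L ^ (j - 1) * T ^ (19 / 20 : ℝ) ≤ A := by
        rw [hA]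
        apply mul_le_mul_of_nonneg_right _ (by positivity)
        exact pow_le_pow_right₀ (by linarith) (by omega)
      have hinv : 1 / u ≤ 20 / D := by
        rw [div_le_div_iff₀ hu hD0]
        linarith
      have h7 : (j : ℝ) * |Real.log u| ^ (j - 1) / u * Real.exp (-v ^ 2) * u ^ (19 / 20 : ℝ) ≤
          20 * j * (2 * d + 1) * M * A / D * Real.exp (-v ^ 2 / 2) := by
        calc (j : ℝ) * |Real.log u| ^ (j - 1) / u * Real.exp (-v ^ 2) * u ^ (19 / 20 : ℝ)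
            = (j * (1 / u)) * (|Real.log u| ^ (j - 1) * u ^ (19 / 20 : ℝ)) *
                Real.exp (-v ^ 2) := by ring
          _ ≤ (j * (20 / D)) * ((2 * d + 1) * A * (1 + |v|) ^ (j + 2)) *
                Real.exp (-v ^ 2) := by
              apply mul_le_mul_of_nonneg_right _ hE.le
              apply mul_le_mul _ _ (by positivity) (by positivity)
              · exact mul_le_mul_of_nonneg_left hinv (Nat.cast_nonneg j)
              · refine hm1.trans ?_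
                apply mul_le_mul _ (hjj _ hpow1) (by positivity) (by positivity)
                exact mul_le_mul_of_nonneg_left hLj (by positivity)
          _ = (20 * j * (2 * d + 1) * A / D) * ((1 + |v|) ^ (j + 2) * Real.exp (-v ^ 2)) := by
              ring
          _ ≤ (20 * j * (2 * d + 1) * A / D) * (M * Real.exp (-v ^ 2 / 2)) :=
              mul_le_mul_of_nonneg_left hg (by positivity)
          _ = _ := by ring
      linarith
    · have hmem : u ∈ Set.Ioc (0 : ℝ) T := ⟨hu, by linarith⟩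
      rw [Set.indicator_of_mem hmem]
      have hlp := log_pow_le (j - 1) hu
      rw [← hd] at hlp
      have hexp : Real.exp (-v ^ 2) ≤ 1 / T := by
        have h8 := hv2' hc1
        calc Real.exp (-v ^ 2) ≤ Real.exp (-L) := Real.exp_le_exp.2 (by linarith)
          _ = 1 / T := by rw [Real.exp_neg, hLd, Real.exp_log hT0, one_div]
      have h9 : (j : ℝ) * |Real.log u| ^ (j - 1) / u * Real.exp (-v ^ 2) * u ^ (19 / 20 : ℝ) ≤
          j * d / T * (u ^ (-(1 / 10) : ℝ) + 1) := by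
        have e1 : (j : ℝ) * |Real.log u| ^ (j - 1) / u * Real.exp (-v ^ 2) * u ^ (19 / 20 : ℝ) =
            j * (|Real.log u| ^ (j - 1) * u ^ (-(1 / 20) : ℝ)) * Real.exp (-v ^ 2) := by
          rw [← hu1]
          ring
        have e2 : (u ^ (-(1 / 20) : ℝ) + u ^ (1 / 20 : ℝ)) * u ^ (-(1 / 20) : ℝ) =
            u ^ (-(1 / 10) : ℝ) + 1 := by
          rw [add_mul, ← Real.rpow_add hu, ← Real.rpow_add hu]
          norm_num
        rw [e1]
        calc (j : ℝ) * (|Real.log u| ^ (j - 1) * u ^ (-(1 / 20) : ℝ)) * Real.exp (-v ^ 2)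
            ≤ j * (d * (u ^ (-(1 / 20) : ℝ) + u ^ (1 / 20 : ℝ)) * u ^ (-(1 / 20) : ℝ)) *
                (1 / T) := by
              apply mul_le_mul _ hexp hE.le (by positivity)
              apply mul_le_mul_of_nonneg_left _ (Nat.cast_nonneg j)
              exact mul_le_mul_of_nonneg_right hlp (by positivity)
          _ = j * d / T * ((u ^ (-(1 / 20) : ℝ) + u ^ (1 / 20 : ℝ)) *
                u ^ (-(1 / 20) : ℝ)) := by ring
          _ = _ := by rw [e2]
      have h10 : 0 ≤ 20 * j * (2 * d + 1) * M * A / D * Real.exp (-v ^ 2 / 2) := by positivity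
      linarith
  have htri : |(j : ℝ) * Real.log u ^ (j - 1) / u * Real.exp (-v ^ 2) -
      Real.log u ^ j * (4 * Real.pi * (v * D) / D ^ 2 * Real.exp (-v ^ 2))| ≤
      (j : ℝ) * |Real.log u| ^ (j - 1) / u * Real.exp (-v ^ 2) +
        |Real.log u| ^ j * (4 * Real.pi * |v| / D * Real.exp (-v ^ 2)) := by
    refine (abs_sub _ _).trans (le_of_eq ?_)
    have e3 : 4 * Real.pi * (v * D) / D ^ 2 = 4 * Real.pi * v / D := by
      field_simp
    rw [e3]
    simp only [abs_mul, abs_div, abs_pow, Nat.abs_cast, abs_of_pos hu, abs_of_pos hE,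
      abs_of_pos hD0, abs_of_pos hpi, Nat.abs_ofNat]
  calc _ ≤ ((j : ℝ) * |Real.log u| ^ (j - 1) / u * Real.exp (-v ^ 2) +
        |Real.log u| ^ j * (4 * Real.pi * |v| / D * Real.exp (-v ^ 2))) * u ^ (19 / 20 : ℝ) :=
        mul_le_mul_of_nonneg_right htri hus.le
    _ = (j : ℝ) * |Real.log u| ^ (j - 1) / u * Real.exp (-v ^ 2) * u ^ (19 / 20 : ℝ) +
        |Real.log u| ^ j * (4 * Real.pi * |v| / D * Real.exp (-v ^ 2)) * u ^ (19 / 20 : ℝ) := by
        ring
    _ ≤ _ := add_le_add first second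
    _ = _ := by ring

theorem gauss_int {T : ℝ} (hD : 0 < DD T) :
    Integrable (fun u : ℝ => Real.exp (-((2 * Real.pi * u - T) / DD T) ^ 2 / 2)) ∧
    ∫ u : ℝ, Real.exp (-((2 * Real.pi * u - T) / DD T) ^ 2 / 2) ≤ DD T := by
  obtain ⟨D, hDd⟩ : ∃ D, D = DD T := ⟨_, rfl⟩
  rw [← hDd] at hD ⊢
  have hpi := Real.pi_pos
  have hb : 0 < 2 * Real.pi ^ 2 / D ^ 2 := by positivity
  have e : (fun u : ℝ => Real.exp (-((2 * Real.pi * u - T) / D) ^ 2 / 2)) =
      fun u : ℝ => (fun x : ℝ => Real.exp (-(2 * Real.pi ^ 2 / D ^ 2) * x ^ 2))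
        (u - T / (2 * Real.pi)) := by
    funext u
    simp only
    congr 1
    field_simp
  rw [e]
  refine ⟨(integrable_exp_neg_mul_sq hb).comp_sub_right _, ?_⟩
  rw [integral_sub_right_eq_self (fun x : ℝ => Real.exp (-(2 * Real.pi ^ 2 / D ^ 2) * x ^ 2)),
    integral_gaussian]
  apply Real.sqrt_le_iff.2
  refine ⟨hD.le, ?_⟩
  rw [div_le_iff₀ hb]
  have : D ^ 2 * (2 * Real.pi ^ 2 / D ^ 2) = 2 * Real.pi ^ 2 := by field_simp
  rw [this]
  nlinarith [Real.pi_gt_three]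

theorem ind_int {T : ℝ} (hT : 1 < T) :
    IntegrableOn (fun u : ℝ => u ^ (-(1 / 10) : ℝ) + 1) (Set.Ioc 0 T) ∧
    ∫ u in Set.Ioc (0 : ℝ) T, (u ^ (-(1 / 10) : ℝ) + 1) ≤ 3 * T := by
  have hT0 : 0 < T := by linarith
  have hi : IntervalIntegrable (fun u : ℝ => u ^ (-(1 / 10) : ℝ)) volume 0 T :=
    intervalIntegral.intervalIntegrable_rpow' (by norm_num)
  have h1 : IntervalIntegrable (fun _ : ℝ => (1 : ℝ)) volume 0 T := intervalIntegrable_const
  have h2 := hi.add h1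
  refine ⟨(intervalIntegrable_iff_integrableOn_Ioc_of_le hT0.le).1 h2, ?_⟩
  rw [← intervalIntegral.integral_of_le hT0.le, intervalIntegral.integral_add hi h1,
    integral_rpow (Or.inl (by norm_num)), intervalIntegral.integral_const]
  have h3 : T ^ (-(1 / 10) + 1 : ℝ) ≤ T := by
    calc T ^ (-(1 / 10) + 1 : ℝ) ≤ T ^ (1 : ℝ) :=
          Real.rpow_le_rpow_of_exponent_le hT.le (by norm_num)
      _ = T := Real.rpow_one T
  have h4 : (0 : ℝ) ^ (-(1 / 10) + 1 : ℝ) = 0 := Real.zero_rpow (by norm_num)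
  rw [h4]
  simp only [smul_eq_mul, mul_one, sub_zero]
  have h5 : T ^ (-(1 / 10) + 1 : ℝ) / (-(1 / 10) + 1) ≤ T / (-(1 / 10) + 1) :=
    div_le_div_of_nonneg_right h3 (by norm_num)
  have h6 : T / (-(1 / 10) + 1) = 10 / 9 * T := by ring
  linarith

end Kd2

theorem kd2 (h : Kd1Statement) : Kd2Statement := by
  intro j
  obtain ⟨c, hc⟩ : ∃ c : ℝ, c = 2 * (20 ^ j * (j.factorial : ℝ)) + 1 := ⟨_, rfl⟩
  obtain ⟨d, hd⟩ : ∃ d : ℝ, d = 20 ^ (j - 1) * ((j - 1).factorial : ℝ) := ⟨_, rfl⟩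
  obtain ⟨M, hM⟩ : ∃ M : ℝ, M = (j + 2).factorial * Real.exp (3 / 2) := ⟨_, rfl⟩
  have hc0 : 0 ≤ c := by rw [hc]; positivity
  have hd0 : 0 ≤ d := by rw [hd]; positivity
  have hM0 : 0 ≤ M := by rw [hM]; positivity
  have hpi := Real.pi_pos
  obtain ⟨E, hE⟩ : ∃ E : ℝ, E = (4 * Real.pi * c + 20 * j * (2 * d + 1)) * M := ⟨_, rfl⟩
  have hE0 : 0 ≤ E := by rw [hE]; positivity
  refine ⟨E + 3 * j * d + 1, by positivity, ?_⟩
  filter_upwards [eventually_gt_atTop 1, Real.tendsto_log_atTop.eventually_ge_atTop 64]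
    with T hT1 hL
  have hT0 : 0 < T := by linarith
  obtain ⟨hD0, hDT, -⟩ := Kd2.facts hT1 hL
  obtain ⟨A, hA⟩ : ∃ A : ℝ, A = Real.log T ^ j * T ^ (19 / 20 : ℝ) := ⟨_, rfl⟩
  have hA1 : 1 ≤ A := by
    rw [hA]
    have h1 : 1 ≤ Real.log T ^ j := one_le_pow₀ (by linarith)
    have h2 : 1 ≤ T ^ (19 / 20 : ℝ) := Real.one_le_rpow hT1.le (by norm_num)
    nlinarith
  obtain ⟨hg1, hg2⟩ := Kd2.gauss_int (T := T) hD0
  obtain ⟨hi1, hi2⟩ := Kd2.ind_int hT1
  have hp : ∀ u ∈ Set.Ioi (0 : ℝ), |deriv (Fj T j) u| * u ^ (19 / 20 : ℝ) ≤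
      E * A / DD T * Real.exp (-((2 * Real.pi * u - T) / DD T) ^ 2 / 2) +
      (Set.Ioc (0 : ℝ) T).indicator (fun u => j * d / T * (u ^ (-(1 / 10) : ℝ) + 1)) u := by
    intro u hu
    have := Kd2.pointwise h j hT1 hL hu
    rw [← hc, ← hd, ← hM, ← hA, ← hE] at this
    exact this
  have hgI : Integrable (fun u : ℝ => E * A / DD T *
      Real.exp (-((2 * Real.pi * u - T) / DD T) ^ 2 / 2)) := hg1.const_mul _
  have hiI : Integrable ((Set.Ioc (0 : ℝ) T).indicator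
      (fun u => j * d / T * (u ^ (-(1 / 10) : ℝ) + 1))) :=
    (integrable_indicator_iff measurableSet_Ioc).2 (hi1.const_mul _)
  have hstep := setIntegral_mono_on (h.2.1 j T (19 / 20) hT1 (by norm_num))
    (hgI.add hiI).integrableOn measurableSet_Ioi hp
  have hsplit : ∫ u in Set.Ioi (0 : ℝ), ((fun u : ℝ => E * A / DD T *
      Real.exp (-((2 * Real.pi * u - T) / DD T) ^ 2 / 2)) + (Set.Ioc (0 : ℝ) T).indicator
        (fun u => j * d / T * (u ^ (-(1 / 10) : ℝ) + 1))) u =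
      (∫ u in Set.Ioi (0 : ℝ), E * A / DD T *
        Real.exp (-((2 * Real.pi * u - T) / DD T) ^ 2 / 2)) +
      ∫ u in Set.Ioi (0 : ℝ), (Set.Ioc (0 : ℝ) T).indicator
        (fun u => j * d / T * (u ^ (-(1 / 10) : ℝ) + 1)) u :=
    integral_add hgI.integrableOn hiI.integrableOn
  have hfirst : (∫ u in Set.Ioi (0 : ℝ), E * A / DD T *
        Real.exp (-((2 * Real.pi * u - T) / DD T) ^ 2 / 2)) ≤ E * A := by
    calc (∫ u in Set.Ioi (0 : ℝ), E * A / DD T *
        Real.exp (-((2 * Real.pi * u - T) / DD T) ^ 2 / 2))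
        ≤ ∫ u : ℝ, E * A / DD T * Real.exp (-((2 * Real.pi * u - T) / DD T) ^ 2 / 2) :=
          setIntegral_le_integral hgI (Eventually.of_forall fun u => by positivity)
      _ = E * A / DD T * ∫ u : ℝ, Real.exp (-((2 * Real.pi * u - T) / DD T) ^ 2 / 2) :=
          integral_const_mul _ _
      _ ≤ E * A / DD T * DD T := mul_le_mul_of_nonneg_left hg2 (by positivity)
      _ = E * A := by field_simp
  have hsecond : ∫ u in Set.Ioi (0 : ℝ), (Set.Ioc (0 : ℝ) T).indicator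
        (fun u => j * d / T * (u ^ (-(1 / 10) : ℝ) + 1)) u ≤ 3 * j * d := by
    rw [setIntegral_indicator measurableSet_Ioc,
      show Set.Ioi (0 : ℝ) ∩ Set.Ioc 0 T = Set.Ioc 0 T from
        Set.inter_eq_right.2 Set.Ioc_subset_Ioi_self, integral_const_mul]
    calc (j : ℝ) * d / T * ∫ u in Set.Ioc (0 : ℝ) T, (u ^ (-(1 / 10) : ℝ) + 1)
        ≤ (j : ℝ) * d / T * (3 * T) := mul_le_mul_of_nonneg_left hi2 (by positivity)
      _ = 3 * j * d := by field_simp
  calc ∫ u in Set.Ioi (0 : ℝ), |deriv (Fj T j) u| * u ^ (19 / 20 : ℝ)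
      ≤ E * A + 3 * j * d := by
        refine hstep.trans ?_
        have := hsplit.trans_le (add_le_add hfirst hsecond)
        exact this
    _ ≤ (E + 3 * j * d + 1) * A := by
        have : (3 * j * d : ℝ) * 1 ≤ 3 * j * d * A :=
          mul_le_mul_of_nonneg_left hA1 (by positivity)
        nlinarith
    _ = _ := by rw [hA]; ring

end Pool.Agent.Lib.MP_6bc78b_nt.MS.L
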