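import Mathlib
import Pool.Agent.Lib.MP_6bc78b_nt.MS.L.Iface

/-! Project MS, Part IIIa, module PS1. -/

set_option autoImplicit false

open Filter Topology ArithmeticFunction MeasureTheory

namespace Pool.Agent.Lib.MP_6bc78b_nt.MS.L

/-- Module PS1. -/
theorem ps1 : Ps1Statement := by
  intro w C0 hC0 hw L t K f f' hL ht0 ht1 hf hf'c hfK hf'K
  have hL0 : (0 : ℝ) < L := by linarith
  set X := Real.exp (t * L) with hX
  have hX1 : 1 ≤ X := Real.one_le_exp (by positivity)
  have hX0 : 0 < X := by positivity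
  have hlogX : Real.log X = t * L := Real.log_exp _
  set g : ℝ → ℝ := fun x => f (Real.log x / L) with hg
  set g' : ℝ → ℝ := fun x => f' (Real.log x / L) * (x⁻¹ / L) with hg'
  have hgd : ∀ x : ℝ, 0 < x → HasDerivAt g (g' x) x := by
    intro x hx
    have h1 : HasDerivAt (fun x : ℝ => Real.log x / L) (x⁻¹ / L) x :=
      (Real.hasDerivAt_log hx.ne').div_const L
    exact (hf (Real.log x / L)).comp x h1
  have hderiv : ∀ x : ℝ, 0 < x → deriv g x = g' x := fun x hx => (hgd x hx).deriv
  have hg'c : ContinuousOn g' (Set.Icc 1 X) := by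
    intro x hx
    have hx0 : x ≠ 0 := by linarith [hx.1]
    apply ContinuousAt.continuousWithinAt
    have h1 : ContinuousAt (fun x : ℝ => Real.log x / L) x :=
      (Real.continuousAt_log hx0).div_const L
    exact (hf'c.continuousAt.comp h1).mul ((continuousAt_inv₀ hx0).div_const L)
  have hgint : IntegrableOn (deriv g) (Set.Icc 1 X) := by
    have h1 : IntegrableOn g' (Set.Icc 1 X) := hg'c.integrableOn_Icc
    refine h1.congr_fun (fun x hx => (hderiv x (by linarith [hx.1])).symm) measurableSet_Icc
  set c : ℕ → ℝ := fun n => if n = 0 then 0 else w n with hc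
  have hc0 : c 0 = 0 := by rw [hc]; simp
  have habel := sum_mul_eq_sub_integral_mul₀ c hc0 X (f := g)
    (fun x hx => (hgd x (by linarith [hx.1])).differentiableAt) hgint
  -- sums of c
  have hsum : ∀ N : ℕ, ∀ h : ℕ → ℝ, ∑ k ∈ Finset.Icc 0 N, h k * c k =
      ∑ k ∈ Finset.Icc 1 N, w k * h k := by
    intro N h
    have hs : Finset.Icc 1 N ⊆ Finset.Icc 0 N := Finset.Icc_subset_Icc_left (by omega)
    rw [← Finset.sum_subset hs]
    · refine Finset.sum_congr rfl (fun k hk => ?_)
      have : k ≠ 0 := by have := (Finset.mem_Icc.1 hk).1; omega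
      rw [hc]; simp only [this, if_false]; ring
    · intro k hk hk'
      rw [Finset.mem_Icc] at hk hk'
      have : k = 0 := by omega
      rw [this, hc0, mul_zero]
  have hA : ∀ N : ℕ, ∑ k ∈ Finset.Icc 0 N, c k = ∑ k ∈ Finset.Icc 1 N, w k := by
    intro N
    have := hsum N (fun _ => 1)
    simpa using this
  rw [hsum, hA] at habel
  simp only [hA] at habel
  rw [habel]
  -- the main part
  set A : ℝ → ℝ := fun x => ∑ k ∈ Finset.Icc 1 ⌊x⌋₊, w k with hAdef
  have hint1 : IntegrableOn (fun x => deriv g x * A x) (Set.Ioc 1 X) := by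
    have h1 := integrableOn_mul_sum_Icc (c := c) (m := 0) (zero_le_one' ℝ) hgint
    have h2 : IntegrableOn (fun x => deriv g x * A x) (Set.Icc 1 X) := by
      refine h1.congr_fun (fun x _ => ?_) measurableSet_Icc
      simp only [hA]; rfl
    exact h2.mono_set Set.Ioc_subset_Icc_self
  have hlogc : ContinuousOn (fun x : ℝ => g' x * Real.log x) (Set.Icc 1 X) := by
    refine hg'c.mul (fun x hx => ?_)
    exact (Real.continuousAt_log (by linarith [hx.1])).continuousWithinAt
  have hint2 : IntegrableOn (fun x => g' x * Real.log x) (Set.Ioc 1 X) :=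
    (hlogc.integrableOn_Icc).mono_set Set.Ioc_subset_Icc_self
  have hparts : ∫ x in (1 : ℝ)..X, g' x * Real.log x =
      g X * Real.log X - ∫ x in (1 : ℝ)..X, g x * x⁻¹ := by
    have h1 := intervalIntegral.integral_mul_deriv_eq_deriv_mul (a := 1) (b := X)
      (u := fun x => Real.log x) (v := g) (u' := fun x => x⁻¹) (v' := g')
      (fun x hx => by
        rw [Set.uIcc_of_le hX1] at hx
        exact Real.hasDerivAt_log (by linarith [hx.1]))
      (fun x hx => by
        rw [Set.uIcc_of_le hX1] at hx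
        exact hgd x (by linarith [hx.1]))
      (by
        apply ContinuousOn.intervalIntegrable
        rw [Set.uIcc_of_le hX1]
        intro x hx
        exact (continuousAt_inv₀ (by linarith [hx.1])).continuousWithinAt)
      (by
        apply ContinuousOn.intervalIntegrable
        rw [Set.uIcc_of_le hX1]
        exact hg'c)
    rw [Real.log_one, zero_mul, sub_zero] at h1
    have e1 : ∫ x in (1 : ℝ)..X, g' x * Real.log x = ∫ x in (1 : ℝ)..X, Real.log x * g' x := by
      congr 1; funext x; ring
    have e2 : ∫ x in (1 : ℝ)..X, g x * x⁻¹ = ∫ x in (1 : ℝ)..X, x⁻¹ * g x := by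
      congr 1; funext x; ring
    rw [e1, e2, h1]; ring
  have hsubst : ∫ x in (1 : ℝ)..X, g x * x⁻¹ = L * ∫ u in (0 : ℝ)..t, f u := by
    have h1 : ∫ x in (1 : ℝ)..X, g x * (x⁻¹ / L) = ∫ u in (0 : ℝ)..t, f u := by
      have h2 := intervalIntegral.integral_comp_mul_deriv' (a := 1) (b := X)
        (f := fun x : ℝ => Real.log x / L) (f' := fun x => x⁻¹ / L) (g := f)
        (fun x hx => by
          rw [Set.uIcc_of_le hX1] at hx
          exact (Real.hasDerivAt_log (by linarith [hx.1])).div_const L)
        (by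
          rw [Set.uIcc_of_le hX1]
          intro x hx
          exact ((continuousAt_inv₀ (by linarith [hx.1])).div_const L).continuousWithinAt)
        ((continuous_iff_continuousAt.2 (fun x => (hf x).continuousAt)).continuousOn)
      simp only [Real.log_one, zero_div, hlogX] at h2
      rw [mul_div_assoc, div_self hL0.ne', mul_one] at h2
      rw [← h2]
      rfl
    rw [← h1, ← intervalIntegral.integral_const_mul]
    congr 1
    funext x
    field_simp
  -- the difference
  have hmain : g X * A X - (∫ x in Set.Ioc 1 X, deriv g x * A x) - L * ∫ u in (0 : ℝ)..t, f u =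
      g X * (A X - Real.log X) - ∫ x in Set.Ioc 1 X, (deriv g x * A x - g' x * Real.log x) := by
    rw [integral_sub hint1 hint2, ← intervalIntegral.integral_of_le hX1 (f := fun x => g' x * Real.log x),
      hparts, hsubst]
    ring
  have hE : ∀ x : ℝ, 1 ≤ x → |A x - Real.log x| ≤ C0 := hw
  have hmem : ∀ x : ℝ, 1 ≤ x → x ≤ X → Real.log x / L ∈ Set.Icc 0 t := by
    intro x hx1 hx2
    constructor
    · exact div_nonneg (Real.log_nonneg hx1) hL0.le
    · rw [div_le_iff₀ hL0, ← hlogX]
      exact Real.log_le_log (by linarith) hx2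
  have hK0 : 0 ≤ K := le_trans (abs_nonneg _) (hfK 0 ⟨le_rfl, ht0⟩)
  have hT1 : |g X * (A X - Real.log X)| ≤ C0 * K := by
    rw [abs_mul, mul_comm]
    refine mul_le_mul (hE X hX1) ?_ (abs_nonneg _) hC0
    exact hfK _ (hmem X hX1 le_rfl)
  have hT2 : |∫ x in Set.Ioc 1 X, (deriv g x * A x - g' x * Real.log x)| ≤ C0 * K := by
    have hb : ∀ x ∈ Set.Ioc 1 X, ‖deriv g x * A x - g' x * Real.log x‖ ≤ C0 * K * (x⁻¹ / L) := by
      intro x hx
      have hx0 : 0 < x := by linarith [hx.1]
      rw [hderiv x hx0, ← mul_sub, norm_mul, Real.norm_eq_abs, Real.norm_eq_abs]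
      have h1 : |g' x| ≤ K * (x⁻¹ / L) := by
        rw [hg']
        simp only
        rw [abs_mul, abs_of_nonneg (show 0 ≤ x⁻¹ / L by positivity)]
        exact mul_le_mul_of_nonneg_right (hf'K _ (hmem x hx.1.le hx.2)) (by positivity)
      calc |g' x| * |A x - Real.log x| ≤ (K * (x⁻¹ / L)) * C0 :=
            mul_le_mul h1 (hE x hx.1.le) (abs_nonneg _) (by positivity)
        _ = C0 * K * (x⁻¹ / L) := by ring
    have hbint : IntegrableOn (fun x : ℝ => C0 * K * (x⁻¹ / L)) (Set.Ioc 1 X) := by
      have : ContinuousOn (fun x : ℝ => C0 * K * (x⁻¹ / L)) (Set.Icc 1 X) := by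
        intro x hx
        exact (((continuousAt_inv₀ (by linarith [hx.1])).div_const L).const_mul _).continuousWithinAt
      exact this.integrableOn_Icc.mono_set Set.Ioc_subset_Icc_self
    have h1 : ‖∫ x in Set.Ioc 1 X, (deriv g x * A x - g' x * Real.log x)‖ ≤
        ∫ x in Set.Ioc 1 X, C0 * K * (x⁻¹ / L) := by
      refine norm_integral_le_of_norm_le hbint ?_
      exact (ae_restrict_iff' measurableSet_Ioc).2 (Filter.Eventually.of_forall hb)
    rw [Real.norm_eq_abs] at h1
    refine le_trans h1 ?_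
    rw [integral_const_mul, ← intervalIntegral.integral_of_le hX1, intervalIntegral.integral_div,
      integral_inv_of_pos one_pos hX0, div_one, hlogX, mul_div_assoc, div_self hL0.ne', mul_one]
    calc C0 * K * t ≤ C0 * K * 1 := mul_le_mul_of_nonneg_left ht1 (by positivity)
      _ = C0 * K := mul_one _
  have hfin : g X * A X - (∫ x in Set.Ioc 1 X, deriv g x * A x) - L * ∫ u in (0 : ℝ)..t, f u =
      g X * (A X - Real.log X) - ∫ x in Set.Ioc 1 X, (deriv g x * A x - g' x * Real.log x) := hmain
  have hgoal : |g X * A X - (∫ x in Set.Ioc 1 X, deriv g x * A x) - L * ∫ u in (0 : ℝ)..t, f u| ≤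
      2 * C0 * K := by
   rw [hfin]
   calc |g X * (A X - Real.log X) - ∫ x in Set.Ioc 1 X, (deriv g x * A x - g' x * Real.log x)|
      ≤ |g X * (A X - Real.log X)| +
        |∫ x in Set.Ioc 1 X, (deriv g x * A x - g' x * Real.log x)| := abs_sub _ _
    _ ≤ C0 * K + C0 * K := add_le_add hT1 hT2
    _ = 2 * C0 * K := by ring
  exact hgoal

end Pool.Agent.Lib.MP_6bc78b_nt.MS.L
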