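import Mathlib
import Pool.Agent.Lib.MP_6bc78b_nt.MS.L.Iface
import Pool.Agent.Lib.MP_6bc78b_nt.MS.L.H04.U
import Pool.Agent.Lib.MP_6bc78b_nt.MS.L.H04.FinLV
import Pool.Agent.Lib.MP_6bc78b_nt.MS.L.H04.FinLVB
import Pool.Agent.Lib.MP_6bc78b_nt.MS.L.H05.Psi
import Pool.Agent.Lib.MP_6bc78b_nt.MS.L.H05.Sla
import Pool.Agent.Lib.MP_6bc78b_nt.MS.L.H16.Kd1
import Pool.Agent.Lib.MP_6bc78b_nt.MS.L.H17.Asy
import Pool.Agent.Lib.MP_6bc78b_nt.MS.L.H17.Jn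
import Pool.Agent.Lib.MP_6bc78b_nt.MS.L.H30.SPL
import Pool.Agent.Lib.MP_6bc78b_nt.MS.L.H38.Ua
import Pool.Agent.Lib.MP_6bc78b_nt.MS.L.H45.Mna
import Pool.Agent.Lib.MP_6bc78b_nt.MS.L.H6.Rea
import Pool.Agent.Lib.MP_6bc78b_nt.MS.L.H61.Mer
import Pool.Agent.Lib.MP_6bc78b_nt.MS.L.H61.Sll
import Pool.Agent.Lib.MP_6bc78b_nt.MS.L.H67.Ps2
import Pool.Agent.Lib.MP_6bc78b_nt.MS.L.H74.ID2
import Pool.Agent.Lib.MP_6bc78b_nt.MS.L.H75.Del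
import Pool.Agent.Lib.MP_6bc78b_nt.MS.L.H75.Err
import Pool.Agent.Lib.MP_6bc78b_nt.MS.L.H75.Ht
import Pool.Agent.Lib.MP_6bc78b_nt.MS.L.H79.Psb
import Pool.Agent.Lib.MP_6bc78b_nt.MS.L.H97.Grw
import Pool.Agent.Lib.MP_6bc78b_nt.MS.L.ID1
import Pool.Agent.Lib.MP_6bc78b_nt.MS.L.KD2
import Pool.Agent.Lib.MP_6bc78b_nt.MS.L.PS1
import Pool.Agent.Lib.MP_6bc78b_nt.MS.L.H03.MN
import Pool.Agent.Lib.MP_6bc78b_nt.MS.L.H54.Htb
import Pool.Agent.Lib.MP_6bc78b_nt.MS.L.H19.Mnb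

/-! Project MS, Part IIIa: `LVStatement` and `LVBStatement` under RH. -/

set_option autoImplicit false

namespace Pool.Agent.Lib.MP_6bc78b_nt.MS.L

theorem uStatement : UStatement := H04.u kd1 (kd2 kd1) H17.jn

theorem mnStatement : MnStatement :=
  H03.mn H75.del (H45.mna H61.mer ps1) (H19.mnb H61.mer (H67.ps2 ps1)) H17.jn

theorem ht_exists (hRH : RiemannHypothesis) : ∃ κ1 κ0 : ℝ, HtStatement κ1 κ0 := by
  have hpsi := H05.psi hRH H61.mer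
  obtain ⟨κ1, κ0, C, hS⟩ := H61.sll hpsi (H05.sla hpsi)
  exact ⟨κ1, κ0, H75.ht κ1 κ0 H97.grw id1 (H38.ua κ1 κ0 C uStatement H17.asy H17.jn hS)⟩

/-- (III1) under RH. -/
theorem lv (hRH : RiemannHypothesis) : LVStatement := by
  obtain ⟨κ1, κ0, hht⟩ := ht_exists hRH
  exact H04.finlv H97.grw (H30.spl H97.grw) κ1 κ0 hht H75.err mnStatement H17.jn

/-- (III2) under RH. -/
theorem lvb (hRH : RiemannHypothesis) : LVBStatement := by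
  obtain ⟨κ1, κ0, hht⟩ := ht_exists hRH
  exact H04.finlvb H97.grw (H30.spl H97.grw) κ1 κ0
    (H54.htb κ1 κ0 H97.grw H61.mer (H74.id2 H97.grw) hht) H75.err mnStatement H6.rea
    (H79.psb H61.mer ps1) H17.jn

end Pool.Agent.Lib.MP_6bc78b_nt.MS.L
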